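import Pool.Agent.H90.ChebProof
import Pool.Agent.H90.ChebInc

set_option autoImplicit false

namespace Pool.Agent.Results.MP_beddab_an.BanachYesNormedNo

open Pool.Agent.H90.ChebDefs

universe u

/-- Yes for every separable Banach space; false for some incomplete separable normed space. -/
theorem result (𝕜 : Type) [RCLike 𝕜] (n : ℕ) :
    (∀ (E : Type u) [NormedAddCommGroup E] [NormedSpace 𝕜 E] [TopologicalSpace.SeparableSpace E]
      [CompleteSpace E], (n : Cardinal) ≤ Module.rank 𝕜 E → HasCheb 𝕜 E n) ∧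
    (1 ≤ n → ¬ ∀ (E : Type) [NormedAddCommGroup E] [NormedSpace 𝕜 E]
      [TopologicalSpace.SeparableSpace E], (n : Cardinal) ≤ Module.rank 𝕜 E → HasCheb 𝕜 E n) :=
  ⟨fun _ _ _ _ _ hn => Pool.Agent.H90.ChebProof.banach hn,
    fun hn h => Pool.Agent.H90.ChebInc.not_cheb hn (h _ (Pool.Agent.H90.ChebInc.rank_ge n))⟩

end Pool.Agent.Results.MP_beddab_an.BanachYesNormedNo
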